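import Pool.Agent.Helper20.HP.Data2

/-!
# HOPF-T3: positivity at `ε = 0` for `T` large and `κ` small
-/

open Filter Metric Module Set
open scoped Topology ContDiff RealInnerProductSpace Manifold Quaternion

namespace Pool.Agent.Helper33.HP
open Pool.Agent.Helper20.PC Pool.Agent.Helper20.HP

/-! ### The limit form at `ε = 0` -/

theorem QG_smul {R : Type*} [CommRing R] [Algebra ℝ R] (κ : ℝ) (x b : Fin 3 → R) (t : R) :
    QG κ x (fun i => t * b i) = t ^ 2 * QG κ x b := by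
  simp only [QG, FbG, HbG, PhG, Algebra.smul_def]
  ring

theorem Pe_zero (κ T : ℝ) (x X : E3) (c z y : ℝ) :
    Pe κ 0 T x X c z y =
      (JK κ x X).a * (2 * ((1/8) * z ^ 2 - (1/8) * c ^ 2
        + 3 * (y * (c * (Jn κ x X 2).c + z * (Jn κ x X 2).b - c * (Jn κ x X 2).a / 4))
        + T * (y ^ 2 * (QG κ (Jx κ x X) (Jn κ x X)).c))
        + (((JK κ x X).a - 1/4) * c + (Jsg κ x X).a * (y * (Jn κ x X 2).a)) ^ 2)
      - (((JK κ x X).a - 1/4) * (z / 2) + (JK κ x X).b * c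
        + y * ((Jsg κ x X).a * (Jn κ x X 2).b + (Jsg κ x X).b * (Jn κ x X 2).a)) ^ 2 := by
  have hQ : QG κ (Jx κ x X) (fun i => (0 : ℝ) • (Jc κ 0 x X c z * Jx κ x X i)
      + (0 : ℝ) • (Jz κ 0 x X c z * JX κ x X i) + J2.C y * Jn κ x X i) =
      (J2.C y) ^ 2 * QG κ (Jx κ x X) (Jn κ x X) := by
    rw [← QG_smul]
    congr 1
    funext i
    simp
  simp only [Pe]
  rw [hQ]
  simp only [Jc, Jr, rr, pow_two, J2.add_a, J2.add_b, J2.add_c, J2.smul_a, J2.smul_b, J2.smul_c,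
    J2.mul_a, J2.mul_b, J2.mul_c, J2.sub_a, J2.sub_b, J2.C_a, J2.C_b, J2.C_c]
  ring

/-! ### The first jets -/

/-- `(K - 1) / κ` -/
noncomputable def k1 (κ : ℝ) (x X : E3) : ℝ :=
  4 * Hb x x - 5 * κ * Hb x x ^ 2 - 4 * κ * (Hb x X ^ 2 + Hb x (cr x X) ^ 2)

/-- `K' / κ` -/
noncomputable def k2 (κ : ℝ) (x X : E3) : ℝ :=
  -4 * sg κ x ^ 2 * Hb x X + 6 * (2 * sg κ x ^ 2 * Hb x X - 2 * κ * sg κ x * Hb x X * Hb x x)
    - 4 * κ * (2 * Hb x X * (sg κ x * Hb X X - sg κ x * Hb x x + 2 * κ * Hb x (cr x X) ^ 2)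
      + 2 * Hb x (cr x X) * (sg κ x * Hb X (cr x X) - 2 * κ * Hb x (cr x X) * Hb x X))

/-- `(sg n₃)' / κ` -/
noncomputable def e1 (κ : ℝ) (x X : E3) : ℝ :=
  -2 * sg κ x * (Hb x (cr x X) * X 2 + Hb x X * cr x X 2)

/-- `n₃'' / κ` -/
noncomputable def e2 (κ : ℝ) (x X : E3) : ℝ :=
  -2 * (sg κ x * Hb X (cr x X) - 2 * κ * Hb x (cr x X) * Hb x X) * X 2
    - 2 * Hb x (cr x X) * (- sg κ x * x 2 + 2 * κ * Hb x (cr x X) * cr x X 2)

/-- `n₃' / κ` -/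
noncomputable def e3' (x X : E3) : ℝ := -2 * Hb x (cr x X) * X 2

theorem Jsg_a (κ : ℝ) (x X : E3) : (Jsg κ x X).a = sg κ x := by
  simp only [Jsg, HbG, Jx, J2.sub_a, J2.one_a, J2.smul_a, J2.add_a, J2.mul_a, sg, Hb]

theorem Jsg_b (κ : ℝ) (x X : E3) : (Jsg κ x X).b = κ * (-2 * sg κ x * Hb x X) := by
  simp only [Jsg, HbG, Jx, J2.sub_b, J2.one_b, J2.smul_b, J2.add_b, J2.mul_b, J2.add_a, jx1, sg, Hb,
    PiLp.smul_apply, smul_eq_mul]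
  ring

theorem Jn_a (κ : ℝ) (x X : E3) : (Jn κ x X 2).a = cr x X 2 := rfl

theorem Jn_b (κ : ℝ) (x X : E3) : (Jn κ x X 2).b = κ * e3' x X := by
  simp only [Jn, jn1, sgn, e3', PiLp.smul_apply, smul_eq_mul]
  ring

theorem Jn_c (κ : ℝ) (x X : E3) : (Jn κ x X 2).c = κ * e2 κ x X := by
  simp only [Jn, jn2, jsn1, jn1, jX1, jx1, sgn, e2, PiLp.smul_apply, PiLp.add_apply,
    PiLp.sub_apply, PiLp.neg_apply, smul_eq_mul, Hb, HbG]
  ring

theorem JK_a (κ : ℝ) (x X : E3) : (JK κ x X).a = 1 + κ * k1 κ x X := by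
  simp only [JK, pow_two, J2.sub_a, J2.add_a, J2.mul_a, J2.smul_a, Jsg_a, HbG, Jx, JX, Jn, k1, sg, Hb]
  ring

theorem JK_b (κ : ℝ) (x X : E3) : (JK κ x X).b = κ * k2 κ x X := by
  simp only [JK, pow_two, J2.sub_b, J2.add_b, J2.mul_b, J2.smul_b, J2.add_a, J2.mul_a, Jsg_a, Jsg_b,
    HbG, Jx, JX, Jn, k2, jx1, jX1, jn1, sgn, Hb, PiLp.smul_apply,
    PiLp.sub_apply, PiLp.neg_apply, smul_eq_mul]
  ring

/-! ### Cross terms -/

/-- coefficient of `y c`, divided by `κ` -/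
noncomputable def lc (κ : ℝ) (x X : E3) : ℝ :=
  6 * (1 + κ * k1 κ x X) * e2 κ x X
    + (1 + κ * k1 κ x X) * cr x X 2 * (2 * k1 κ x X * sg κ x - 3/2 * Hb x x)
    - 2 * κ * k2 κ x X * e1 κ x X

/-- coefficient of `y z`, divided by `κ` -/
noncomputable def lz (κ : ℝ) (x X : E3) : ℝ :=
  6 * (1 + κ * k1 κ x X) * e3' x X - (3/4 + κ * k1 κ x X) * e1 κ x X

/-- the quadratic form inequality -/
theorem core {K w σ n0 n1 n2 sn K1 Q T a c z y : ℝ} (hK : |K - 1| ≤ 1/100) (hw : w = K - 1/4)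
    (hK1 : |K1| ≤ 1/100)
    (hLc : |6 * K * (n2 - n0 / 4) + 2 * K * w * σ * n0 - 2 * K1 * sn| ≤ a)
    (hLz : |6 * K * n1 - w * sn| ≤ a)
    (hD : 12 * a ^ 2 < K * (2 * T * Q + σ ^ 2 * n0 ^ 2) - sn ^ 2)
    (hne : c ^ 2 + z ^ 2 + y ^ 2 ≠ 0) :
    0 < K * (2 * ((1/8) * z ^ 2 - (1/8) * c ^ 2 + 3 * (y * (c * n2 + z * n1 - c * n0 / 4))
        + T * (y ^ 2 * Q)) + (w * c + σ * (y * n0)) ^ 2)
      - (w * (z / 2) + K1 * c + y * sn) ^ 2 := by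
  set Lc : ℝ := 6 * K * (n2 - n0 / 4) + 2 * K * w * σ * n0 - 2 * K1 * sn with hLcdef
  set Lz : ℝ := 6 * K * n1 - w * sn with hLzdef
  set D : ℝ := K * (2 * T * Q + σ ^ 2 * n0 ^ 2) - sn ^ 2 with hDdef
  have hexp : K * (2 * ((1/8) * z ^ 2 - (1/8) * c ^ 2 + 3 * (y * (c * n2 + z * n1 - c * n0 / 4))
        + T * (y ^ 2 * Q)) + (w * c + σ * (y * n0)) ^ 2)
      - (w * (z / 2) + K1 * c + y * sn) ^ 2 =
      (K * (w ^ 2 - 1/4) - K1 ^ 2) * c ^ 2 + (K / 4 - w ^ 2 / 4) * z ^ 2 - w * K1 * (c * z)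
        + Lc * (y * c) + Lz * (y * z) + D * y ^ 2 := by
    rw [hLcdef, hLzdef, hDdef]
    ring
  rw [hexp]
  rw [abs_le] at hK hK1 hLc hLz
  obtain ⟨hK_l, hK_u⟩ := hK
  obtain ⟨hK1_l, hK1_u⟩ := hK1
  have hKl : 99/100 ≤ K := by linarith only [hK_l]
  have hKu : K ≤ 101/100 := by linarith only [hK_u]
  have hwl : 74/100 ≤ w := by linarith only [hw, hK_l]
  have hwu : w ≤ 76/100 := by linarith only [hw, hK_u]
  have hK1sq : K1 ^ 2 ≤ 1/10000 := by nlinarith only [hK1_l, hK1_u]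
  have hLcsq : Lc ^ 2 ≤ a ^ 2 := by
    have := hLc.1
    have := hLc.2
    nlinarith only [hLc]
  have hLzsq : Lz ^ 2 ≤ a ^ 2 := by
    have := hLz.1
    have := hLz.2
    nlinarith only [hLz]
  have hMc : 1/4 ≤ K * (w ^ 2 - 1/4) - K1 ^ 2 := by
    have h1 : 29/100 ≤ w ^ 2 - 1/4 := by nlinarith only [hw, hK_l]
    have h2 : 99/100 * (29/100) ≤ K * (w ^ 2 - 1/4) :=
      mul_le_mul hKl h1 (by norm_num) (by linarith only [hK_l])
    linarith only [hK1sq, h2]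
  have hMz : 1/10 ≤ K / 4 - w ^ 2 / 4 := by nlinarith only [hw, hK_u, hK_l]
  have hcz : -(1/200) * (c ^ 2 + z ^ 2) ≤ - (w * K1 * (c * z)) := by
    have h1 : |w * K1| ≤ 1/100 := by
      rw [abs_mul, abs_of_nonneg (by linarith only [hw, hK_l] : (0 : ℝ) ≤ w)]
      have : |K1| ≤ 1/100 := abs_le.2 ⟨by linarith only [hK1_l], by linarith only [hK1_u]⟩
      nlinarith only [hw, hK_u, this, hK_l, abs_nonneg K1]
    rw [abs_le] at h1
    nlinarith only [h1, sq_nonneg (c - z), sq_nonneg (c + z), h1.1, h1.2]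
  have hyc : -(1/24) * c ^ 2 - 6 * a ^ 2 * y ^ 2 ≤ Lc * (y * c) := by
    have h1 := sq_nonneg (c + 12 * Lc * y)
    have h2 : Lc ^ 2 * y ^ 2 ≤ a ^ 2 * y ^ 2 := mul_le_mul_of_nonneg_right hLcsq (sq_nonneg y)
    nlinarith
  have hyz : -(1/24) * z ^ 2 - 6 * a ^ 2 * y ^ 2 ≤ Lz * (y * z) := by
    have h1 := sq_nonneg (z + 12 * Lz * y)
    have h2 : Lz ^ 2 * y ^ 2 ≤ a ^ 2 * y ^ 2 := mul_le_mul_of_nonneg_right hLzsq (sq_nonneg y)
    nlinarith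
  have hc2 : 1/4 * c ^ 2 ≤ (K * (w ^ 2 - 1/4) - K1 ^ 2) * c ^ 2 :=
    mul_le_mul_of_nonneg_right hMc (sq_nonneg c)
  have hz2 : 1/10 * z ^ 2 ≤ (K / 4 - w ^ 2 / 4) * z ^ 2 :=
    mul_le_mul_of_nonneg_right hMz (sq_nonneg z)
  have hlow : 1/20 * c ^ 2 + 1/20 * z ^ 2 + (D - 12 * a ^ 2) * y ^ 2 ≤
      (K * (w ^ 2 - 1/4) - K1 ^ 2) * c ^ 2 + (K / 4 - w ^ 2 / 4) * z ^ 2 - w * K1 * (c * z)
        + Lc * (y * c) + Lz * (y * z) + D * y ^ 2 := by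
    linarith only [hcz, hyc, hyz, hc2, hz2, sq_nonneg c, sq_nonneg z]
  refine lt_of_lt_of_le ?_ hlow
  have hDp : 0 < D - 12 * a ^ 2 := by linarith only [hD]
  rcases eq_or_ne y 0 with hy | hy
  · have : 0 < c ^ 2 + z ^ 2 := by
      have h1 : 0 ≤ c ^ 2 + z ^ 2 := by positivity
      refine lt_of_le_of_ne h1 ?_
      intro h
      apply hne
      rw [hy, ← h]
      ring
    linarith only [this, hDp, mul_nonneg hDp.le (sq_nonneg y)]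
  · have : 0 < y ^ 2 := by positivity
    have h3 := mul_pos hDp this
    linarith only [h3, sq_nonneg c, sq_nonneg z]

/-! ### Continuity -/

theorem cr0 (x X : E3) : cr x X 0 = x 1 * X 2 - x 2 * X 1 := rfl
theorem cr1 (x X : E3) : cr x X 1 = x 2 * X 0 - x 0 * X 2 := rfl
theorem cr2 (x X : E3) : cr x X 2 = x 0 * X 1 - x 1 * X 0 := rfl

theorem cont_k1 : Continuous fun p : ℝ × E3 × E3 => k1 p.1 p.2.1 p.2.2 := by
  unfold k1 Hb HbG
  simp only [cr0, cr1, cr2]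
  fun_prop

theorem cont_k2 : Continuous fun p : ℝ × E3 × E3 => k2 p.1 p.2.1 p.2.2 := by
  unfold k2 sg Hb HbG
  simp only [cr0, cr1, cr2]
  fun_prop

theorem cont_e1 : Continuous fun p : ℝ × E3 × E3 => e1 p.1 p.2.1 p.2.2 := by
  unfold e1 sg Hb HbG
  simp only [cr0, cr1, cr2]
  fun_prop

theorem cont_e2 : Continuous fun p : ℝ × E3 × E3 => e2 p.1 p.2.1 p.2.2 := by
  unfold e2 sg Hb HbG
  simp only [cr0, cr1, cr2]
  fun_prop

theorem cont_e3 : Continuous fun p : ℝ × E3 × E3 => e3' p.2.1 p.2.2 := by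
  unfold e3' Hb HbG
  simp only [cr0, cr1, cr2]
  fun_prop

theorem cont_sg : Continuous fun p : ℝ × E3 × E3 => sg p.1 p.2.1 := by
  unfold sg Hb HbG
  fun_prop

theorem cont_n : Continuous fun p : ℝ × E3 × E3 => cr p.2.1 p.2.2 2 := by
  simp only [cr2]
  fun_prop

theorem cont_Hb : Continuous fun p : ℝ × E3 × E3 => Hb p.2.1 p.2.1 := by
  unfold Hb HbG
  fun_prop

theorem cont_lc : Continuous fun p : ℝ × E3 × E3 => lc p.1 p.2.1 p.2.2 := by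
  have h1 := cont_k1
  have h2 := cont_k2
  have h3 := cont_e1
  have h4 := cont_e2
  have h5 := cont_sg
  have h6 := cont_n
  have h7 := cont_Hb
  unfold lc
  fun_prop

theorem cont_lz : Continuous fun p : ℝ × E3 × E3 => lz p.1 p.2.1 p.2.2 := by
  have h1 := cont_k1
  have h3 := cont_e1
  have h4 := cont_e3
  unfold lz
  fun_prop

theorem cont_Kc : Continuous fun p : ℝ × E3 => Kc p.1 p.2 := by
  unfold Kc Hv sg Hb HbG
  simp only [EuclideanSpace.norm_sq_eq, Fin.sum_univ_three]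
  simp only [Real.norm_eq_abs, sq_abs]
  fun_prop

/-! ### Compactness -/

/-- the orthonormal frames -/
def Fr : Set (E3 × E3) := {p | ‖p.1‖ = 1 ∧ ‖p.2‖ = 1 ∧ ⟪p.1, p.2⟫ = 0}

theorem isCompact_Fr : IsCompact Fr := by
  have h1 : IsCompact (sphere (0 : E3) 1 ×ˢ sphere (0 : E3) 1) :=
    (isCompact_sphere 0 1).prod (isCompact_sphere 0 1)
  have h2 : IsClosed {p : E3 × E3 | ⟪p.1, p.2⟫ = 0} :=
    isClosed_eq (by fun_prop) continuous_const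
  have h3 : Fr = (sphere (0 : E3) 1 ×ˢ sphere (0 : E3) 1) ∩ {p : E3 × E3 | ⟪p.1, p.2⟫ = 0} := by
    ext p
    simp only [Fr, mem_ofPred_eq, mem_inter_iff, mem_prod, mem_sphere_zero_iff_norm, and_assoc]
  rw [h3]
  exact h1.inter_right h2

/-- evaluation of a uniform strict inequality at parameter `0` extends to small parameters. -/
theorem eventually_Fr {F : ℝ × E3 × E3 → ℝ} (hF : Continuous F) {r : ℝ}
    (h : ∀ p ∈ Fr, r < F (0, p)) : ∀ᶠ κ in 𝓝 (0 : ℝ), ∀ p ∈ Fr, r < F (κ, p) := by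
  refine isCompact_Fr.eventually_forall_of_forall_eventually (P := fun κ p => r < F (κ, p)) ?_
  intro p hp
  have h1 : ContinuousAt (fun z : ℝ × (E3 × E3) => F (z.1, z.2)) (0, p) := by
    fun_prop
  exact h1.eventually (lt_mem_nhds (h p hp))

/-- a bound on `[0,1] × Fr`. -/
theorem exists_bound {F : ℝ × E3 × E3 → ℝ} (hF : Continuous F) :
    ∃ B : ℝ, ∀ κ : ℝ, 0 ≤ κ → κ ≤ 1 → ∀ p ∈ Fr, |F (κ, p)| ≤ B := by
  obtain ⟨B, hB⟩ := ((isCompact_Icc (a := (0 : ℝ)) (b := 1)).prod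
    isCompact_Fr).exists_bound_of_continuousOn hF.continuousOn
  exact ⟨B, fun κ h0 h1 p hp => hB (κ, p) ⟨⟨h0, h1⟩, hp⟩⟩

theorem exists_Lam {Wf : ℝ × E3 × E3 → ℝ} (hW : Continuous Wf)
    (hW0 : ∀ x X : E3, ‖x‖ = 1 → ‖X‖ = 1 → ⟪x, X⟫ = 0 → cr x X 2 = 0 → 7/8 ≤ Wf (0, x, X)) :
    ∃ Λ : ℝ, 0 < Λ ∧ ∀ p ∈ Fr, 3/4 ≤ Wf (0, p) + Λ * (cr p.1 p.2 2) ^ 2 := by
  obtain ⟨C, hC⟩ := exists_bound hW
  have hW' : Continuous fun p : E3 × E3 => Wf (0, p) := by fun_prop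
  have hn : Continuous fun p : E3 × E3 => (cr p.1 p.2 2) ^ 2 := by
    simp only [cr2]
    fun_prop
  have hcomp : IsCompact (Fr ∩ {p : E3 × E3 | Wf (0, p) ≤ 3/4}) :=
    isCompact_Fr.inter_right (isClosed_le hW' continuous_const)
  rcases (Fr ∩ {p : E3 × E3 | Wf (0, p) ≤ 3/4}).eq_empty_or_nonempty with he | he
  · refine ⟨1, one_pos, fun p hp => ?_⟩
    have h1 : ¬ (Wf (0, p) ≤ 3/4) := by
      intro h
      have : p ∈ Fr ∩ {p : E3 × E3 | Wf (0, p) ≤ 3/4} := ⟨hp, h⟩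
      rw [he] at this
      exact this
    push Not at h1
    linarith only [h1, sq_nonneg (cr p.1 p.2 2)]
  · obtain ⟨p₀, hp₀, hmin⟩ := hcomp.exists_isMinOn he hn.continuousOn
    set g : ℝ := (cr p₀.1 p₀.2 2) ^ 2 with hg
    have hg0 : 0 < g := by
      have h1 : cr p₀.1 p₀.2 2 ≠ 0 := by
        intro h
        have h2 := hW0 p₀.1 p₀.2 hp₀.1.1 hp₀.1.2.1 hp₀.1.2.2 h
        have h3 : Wf (0, p₀) ≤ 3/4 := hp₀.2
        have h4 : Wf (0, p₀.1, p₀.2) = Wf (0, p₀) := rfl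
        linarith
      positivity
    have hC0 : 0 ≤ C := (abs_nonneg _).trans (hC 0 le_rfl zero_le_one p₀ hp₀.1)
    refine ⟨(C + 1) / g, by positivity, fun p hp => ?_⟩
    by_cases h : Wf (0, p) ≤ 3/4
    · have h1 : g ≤ (cr p.1 p.2 2) ^ 2 := hmin ⟨hp, h⟩
      have h2 : C + 1 ≤ (C + 1) / g * (cr p.1 p.2 2) ^ 2 := by
        calc C + 1 = (C + 1) / g * g := by field_simp
          _ ≤ _ := mul_le_mul_of_nonneg_left h1 (by positivity)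
      have h3 := (abs_le.1 (hC 0 le_rfl zero_le_one p hp)).1
      linarith
    · push Not at h
      have : 0 ≤ (C + 1) / g * (cr p.1 p.2 2) ^ 2 := by positivity
      linarith

/-! ### Conclusion -/

/-- HOPF-T3, with the key identity (T2) as a hypothesis. -/
theorem tstage_kappa
    (key : ∃ Wf : ℝ × E3 × E3 → ℝ, Continuous Wf ∧
      (∀ κ : ℝ, ∀ x X : E3, ‖x‖ = 1 → ‖X‖ = 1 → ⟪x, X⟫ = 0 →
        (QG κ (Jx κ x X) (Jn κ x X)).c = κ ^ 2 * Wf (κ, x, X)) ∧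
      (∀ x X : E3, ‖x‖ = 1 → ‖X‖ = 1 → ⟪x, X⟫ = 0 → cr x X 2 = 0 → 7/8 ≤ Wf (0, x, X))) :
    ∃ κ T : ℝ, 0 < κ ∧ κ ≤ 1/10 ∧ 0 < T ∧ (∀ x : E3, ‖x‖ = 1 → 1/2 ≤ Kc κ x) ∧
      ∀ x X : E3, ‖x‖ = 1 → ‖X‖ = 1 → ⟪x, X⟫ = 0 → ∀ c z y : ℝ, c ^ 2 + z ^ 2 + y ^ 2 ≠ 0 →
        0 < Pe κ 0 T x X c z y := by
  obtain ⟨Wf, hWc, hWQ, hW0⟩ := key
  obtain ⟨Λ, hΛ, hΛW⟩ := exists_Lam hWc hW0
  obtain ⟨B1, hB1⟩ := exists_bound cont_lc
  obtain ⟨B2, hB2⟩ := exists_bound cont_lz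
  obtain ⟨B3, hB3⟩ := exists_bound cont_e1
  set B : ℝ := max 1 (max B1 (max B2 B3)) with hBdef
  have hBone : 1 ≤ B := le_max_left _ _
  have hB1' : B1 ≤ B := (le_max_left _ _).trans (le_max_right _ _)
  have hB2' : B2 ≤ B := ((le_max_left _ _).trans (le_max_right _ _)).trans (le_max_right _ _)
  have hB3' : B3 ≤ B := ((le_max_right _ _).trans (le_max_right _ _)).trans (le_max_right _ _)
  set T : ℝ := 26 * B ^ 2 + 2 with hT
  have hT0 : 0 < T := by positivity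
  -- smallness conditions
  have c1 : ∀ᶠ κ in 𝓝 (0 : ℝ), ∀ p ∈ Fr, -(1/100) < κ * k1 κ p.1 p.2 := by
    refine eventually_Fr (F := fun z => z.1 * k1 z.1 z.2.1 z.2.2) ?_ ?_
    · exact continuous_fst.mul cont_k1
    · intro p _
      simp
  have c2 : ∀ᶠ κ in 𝓝 (0 : ℝ), ∀ p ∈ Fr, -(1/100) < -(κ * k1 κ p.1 p.2) := by
    refine eventually_Fr (F := fun z => -(z.1 * k1 z.1 z.2.1 z.2.2)) ?_ ?_
    · exact (continuous_fst.mul cont_k1).neg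
    · intro p _
      simp
  have c3 : ∀ᶠ κ in 𝓝 (0 : ℝ), ∀ p ∈ Fr, -(1/100) < κ * k2 κ p.1 p.2 := by
    refine eventually_Fr (F := fun z => z.1 * k2 z.1 z.2.1 z.2.2) ?_ ?_
    · exact continuous_fst.mul cont_k2
    · intro p _
      simp
  have c4 : ∀ᶠ κ in 𝓝 (0 : ℝ), ∀ p ∈ Fr, -(1/100) < -(κ * k2 κ p.1 p.2) := by
    refine eventually_Fr (F := fun z => -(z.1 * k2 z.1 z.2.1 z.2.2)) ?_ ?_
    · exact (continuous_fst.mul cont_k2).neg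
    · intro p _
      simp
  have c5 : ∀ᶠ κ in 𝓝 (0 : ℝ), ∀ p ∈ Fr, 1/2 < sg κ p.1 := by
    refine eventually_Fr (F := fun z => sg z.1 z.2.1) cont_sg ?_
    intro p _
    simp only [sg, zero_mul, sub_zero]
    norm_num
  have c6 : ∀ᶠ κ in 𝓝 (0 : ℝ), ∀ p ∈ Fr, 1/2 < Wf (κ, p) + Λ * (cr p.1 p.2 2) ^ 2 := by
    refine eventually_Fr (F := fun z => Wf z + Λ * (cr z.2.1 z.2.2 2) ^ 2) ?_ ?_
    · have h6 := cont_n
      fun_prop
    · intro p hp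
      have := hΛW p hp
      simp only
      linarith
  have c7 : ∀ᶠ κ in 𝓝 (0 : ℝ), ∀ x ∈ sphere (0 : E3) 1, 1/2 < Kc κ x := by
    refine (isCompact_sphere (0 : E3) 1).eventually_forall_of_forall_eventually
      (P := fun κ x => 1/2 < Kc κ x) ?_
    intro x _
    have h1 : ContinuousAt (fun z : ℝ × E3 => Kc z.1 z.2) (0, x) := cont_Kc.continuousAt
    refine h1.eventually (lt_mem_nhds ?_)
    simp only [Kc, sg]
    norm_num
  have c8 : ∀ᶠ κ in 𝓝 (0 : ℝ), κ < 1/10 := gt_mem_nhds (by norm_num)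
  have c9 : ∀ᶠ κ in 𝓝 (0 : ℝ), 2 * T * Λ * κ ^ 2 < 1/4 := by
    have h1 : ContinuousAt (fun κ : ℝ => 2 * T * Λ * κ ^ 2) 0 := by fun_prop
    refine h1.eventually (gt_mem_nhds ?_)
    norm_num
  have hall := ((((((((c1.and c2).and c3).and c4).and c5).and c6).and c7).and c8).and c9)
  have hex : ∀ᶠ κ in 𝓝[>] (0 : ℝ), _ := (hall.filter_mono nhdsWithin_le_nhds).and self_mem_nhdsWithin
  obtain ⟨κ, ⟨⟨⟨⟨⟨⟨⟨⟨d1, d2⟩, d3⟩, d4⟩, d5⟩, d6⟩, d7⟩, d8⟩, d9⟩, hκpos⟩ := hex.exists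
  have hκ0 : 0 < κ := hκpos
  refine ⟨κ, T, hκ0, d8.le, hT0, fun x hx => (d7 x (mem_sphere_zero_iff_norm.2 hx)).le, ?_⟩
  intro x X hx hX hxX c z y hne
  have hp : ((x, X) : E3 × E3) ∈ Fr := ⟨hx, hX, hxX⟩
  have q1 := d1 _ hp
  have q2 := d2 _ hp
  have q3 := d3 _ hp
  have q4 := d4 _ hp
  have q5 := d5 _ hp
  have q6 := d6 _ hp
  have b1 := hB1 κ hκ0.le (by linarith only [hκpos, d8]) _ hp
  have b2 := hB2 κ hκ0.le (by linarith only [hκpos, d8]) _ hp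
  have b3 := hB3 κ hκ0.le (by linarith only [hκpos, d8]) _ hp
  simp only at q1 q2 q3 q4 q5 q6 b1 b2 b3
  rw [Pe_zero, JK_a, JK_b, Jsg_a, Jsg_b, Jn_a, Jn_b, Jn_c, hWQ κ x X hx hX hxX]
  have hsn : sg κ x * (κ * e3' x X) + κ * (-2 * sg κ x * Hb x X) * cr x X 2 = κ * e1 κ x X := by
    simp only [e1, e3']
    ring
  rw [hsn]
  have hB0 : 0 < B := by linarith
  refine core (a := κ * B) (w := 1 + κ * k1 κ x X - 1/4) ?_ rfl ?_ ?_ ?_ ?_ hne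
  · rw [abs_le]
    constructor <;> linarith only [q1, q2]
  · rw [abs_le]
    constructor <;> linarith only [q3, q4]
  · have e : 6 * (1 + κ * k1 κ x X) * (κ * e2 κ x X - cr x X 2 / 4)
        + 2 * (1 + κ * k1 κ x X) * (1 + κ * k1 κ x X - 1/4) * sg κ x * cr x X 2
        - 2 * (κ * k2 κ x X) * (κ * e1 κ x X) = κ * lc κ x X := by
      simp only [lc, sg]
      ring
    rw [e, abs_mul, abs_of_pos hκ0]
    exact mul_le_mul_of_nonneg_left (b1.trans hB1') hκ0.le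
  · have e : 6 * (1 + κ * k1 κ x X) * (κ * e3' x X)
        - (1 + κ * k1 κ x X - 1/4) * (κ * e1 κ x X) = κ * lz κ x X := by
      simp only [lz]
      ring
    rw [e, abs_mul, abs_of_pos hκ0]
    exact mul_le_mul_of_nonneg_left (b2.trans hB2') hκ0.le
  · set n0 : ℝ := cr x X 2 with hn0
    set W : ℝ := Wf (κ, x, X) with hWdef
    have hsig : 1/4 ≤ sg κ x ^ 2 := by nlinarith only [hκpos, q5, d8]
    have hn02 : 0 ≤ n0 ^ 2 := sq_nonneg _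
    have h1 : T * κ ^ 2 ≤ 2 * T * (κ ^ 2 * W) + sg κ x ^ 2 * n0 ^ 2 := by
      have h2 : 2 * T * κ ^ 2 * (1/2 - Λ * n0 ^ 2) ≤ 2 * T * κ ^ 2 * W := by
        refine mul_le_mul_of_nonneg_left ?_ (by positivity)
        linarith only [q6]
      have h3 : 2 * T * Λ * κ ^ 2 * n0 ^ 2 ≤ 1/4 * n0 ^ 2 := mul_le_mul_of_nonneg_right d9.le hn02
      have h4 : 1/4 * n0 ^ 2 ≤ sg κ x ^ 2 * n0 ^ 2 := mul_le_mul_of_nonneg_right hsig hn02
      linarith only [h2, h3, h4]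
    have h5 : (99/100) * (T * κ ^ 2) ≤ (1 + κ * k1 κ x X) *
        (2 * T * (κ ^ 2 * W) + sg κ x ^ 2 * n0 ^ 2) := by
      refine mul_le_mul (by linarith only [q1]) h1 (by positivity) (by linarith only [hκpos, d8, q1])
    have h6 : (κ * e1 κ x X) ^ 2 ≤ κ ^ 2 * B ^ 2 := by
      have h7 : |e1 κ x X| ≤ B := b3.trans hB3'
      have h8 : e1 κ x X ^ 2 ≤ B ^ 2 := by
        rw [← sq_abs]
        exact pow_le_pow_left₀ (abs_nonneg _) h7 2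
      rw [mul_pow]
      exact mul_le_mul_of_nonneg_left h8 (sq_nonneg _)
    have hκ2 : 0 < κ ^ 2 := by positivity
    have h9 : (99/100) * (T * κ ^ 2) = (99/100) * (26 * B ^ 2 + 2) * κ ^ 2 := by
      rw [hT]
      ring
    have h10 : 12 * (κ * B) ^ 2 = 12 * B ^ 2 * κ ^ 2 := by ring
    rw [h10]
    linarith only [h5, h6, hκ2, mul_pos hκ2 (by positivity : 0 < B ^ 2)]

end Pool.Agent.Helper33.HP
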